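import Pool.Agent.N52.ST.Stm

/-!
# Project ST, XX (helper498, for helper52): masses and almost central partitions
-/

set_option autoImplicit false

namespace Pool.Agent.N498.ST.XX

open Matrix Finset
open scoped ComplexOrder
open Pool.Agent.W661.RC Pool.Agent.W683.RC Pool.Agent.N303.KQ Pool.Agent.N52.NH Pool.Agent.N52.ST

theorem sum_hs_left {d : ℕ} {ι n : Type} [Fintype n] (s : Finset ι) (z : ι → Mt d) (P : Mt d)
    (hz : ∀ i ∈ s, IsPr (z i)) (hP : IsPr P) (hs1 : ∑ i ∈ s, z i = P) (y : Matrix (Fin d) n ℂ) :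
    ∑ i ∈ s, hs (z i * y) = hs (P * y) := by
  have h1 : ∀ p : Mt d, IsPr p → hs (p * y) = tr (yᴴ * p * y) := by
    intro p hp
    rw [hs_eq_tr, Matrix.conjTranspose_mul, hp.1]
    congr 1
    calc yᴴ * p * (p * y) = yᴴ * (p * p) * y := by simp only [Matrix.mul_assoc]
      _ = _ := by rw [hp.2]
  rw [h1 P hP, ← hs1, Matrix.mul_sum, Matrix.sum_mul, tr_sum]
  exact sum_congr rfl fun i hi => h1 _ (hz i hi)

theorem sum_hs_right {d : ℕ} {ι n : Type} [Fintype n] (s : Finset ι) (z : ι → Mt d) (P : Mt d)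
    (hz : ∀ i ∈ s, IsPr (z i)) (hP : IsPr P) (hs1 : ∑ i ∈ s, z i = P) (y : Matrix n (Fin d) ℂ) :
    ∑ i ∈ s, hs (y * z i) = hs (y * P) := by
  have h := sum_hs_left s z P hz hP hs1 yᴴ
  have h2 : ∀ p : Mt d, IsPr p → hs (p * yᴴ) = hs (y * p) := by
    intro p hp
    rw [← hs_conjTranspose, Matrix.conjTranspose_mul, Matrix.conjTranspose_conjTranspose, hp.1]
  rw [h2 P hP] at h
  rw [← h]
  exact sum_congr rfl fun i hi => (h2 _ (hz i hi)).symm

theorem main (hK : S_KKZ) : S_XX := by
  classical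
  intro d O Q g a e N0 N hg _ he
  obtain ⟨hz, _, hzs, -⟩ := hK d O
  have zpr : ∀ κ ∈ cl O, IsPr (zc O κ) := fun κ _ => (hz κ).1
  have hp : ∀ j ∈ (univ : Finset Q.I), IsPr (pr Q j) := fun j _ => pr_isPr j
  -- the quadratic form is at most the square of the norm
  have hle : ∀ b : Mt d, mb O g b N0 ≤ hs b := by
    intro b
    have h1 : mb O g b N0 ≤ ∑ κ' ∈ cl O, ∑ κ ∈ cl O, hs (zc O κ' * (g * (zc O κ * b))) := by
      unfold mb
      refine sum_le_sum fun κ' _ => sum_le_sum fun κ _ => ?_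
      split_ifs
      · simp only [Matrix.mul_assoc]
        exact le_rfl
      · exact hs_nonneg _
    rw [sum_comm] at h1
    have h2 : ∀ κ ∈ cl O, ∑ κ' ∈ cl O, hs (zc O κ' * (g * (zc O κ * b))) ≤ hs (zc O κ * b) := by
      intro κ _
      rw [sum_hs_left (cl O) (zc O) (pO O) zpr pO_pr hzs]
      refine (hs_pr_mul_le_self pO_pr _).trans ?_
      rw [hs_unit_mul hg]
    refine (h1.trans (sum_le_sum h2)).trans ?_
    rw [sum_hs_left (cl O) (zc O) (pO O) zpr pO_pr hzs]
    exact hs_pr_mul_le_self pO_pr _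
  -- subadditivity
  have hadd : ∀ b b' : Mt d, mb O g (b + b') N0 ≤ 2 * mb O g b N0 + 2 * mb O g b' N0 := by
    intro b b'
    unfold mb
    simp only [mul_sum]
    rw [← sum_add_distrib]
    refine sum_le_sum fun κ' _ => ?_
    rw [← sum_add_distrib]
    refine sum_le_sum fun κ _ => ?_
    split_ifs
    · rw [Matrix.mul_add]
      exact hs_add_le _ _
    · simp
  -- the masses and the pieces
  have hms : ∑ j, mb O g (pr Q j) N0 + mb O g (1 - pO Q) N0 = ms O g N0 := by
    unfold mb ms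
    rw [sum_comm, ← sum_add_distrib]
    refine sum_congr rfl fun κ' _ => ?_
    rw [sum_comm, ← sum_add_distrib]
    refine sum_congr rfl fun κ _ => ?_
    split_ifs
    · rw [sum_hs_right univ (fun j => pr Q j) (pO Q) hp pO_pr sum_pr]
      exact (hs_pyth_right pO_pr _).symm
    · simp
  have hc : mb O g (1 - pO Q) N0 ≤ (d : ℝ) - D0 Q := by
    have h := hle (1 - pO Q)
    rwa [hs_compl] at h
  have hc0 : 0 ≤ mb O g (1 - pO Q) N0 := by
    unfold mb
    refine sum_nonneg fun κ' _ => sum_nonneg fun κ _ => ?_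
    split_ifs
    · exact hs_nonneg _
    · exact le_rfl
  constructor
  · intro hN
    have h1 : ∀ j ∈ (univ : Finset Q.I), mb O g (a j) (N j) ≤
        2 * mb O g (pr Q j) N0 + 2 * hs (pr Q j - a j) := by
      intro j _
      have h2 : mb O g (a j) (N j) ≤ mb O g (a j) N0 := by
        unfold mb
        refine sum_le_sum fun κ' _ => sum_le_sum fun κ _ => ?_
        by_cases h3 : N j κ' κ
        · rw [if_pos h3, if_pos (hN j κ' κ h3)]
        · rw [if_neg h3]
          split_ifs
          · exact hs_nonneg _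
          · exact le_rfl
      have h3 := hadd (pr Q j) (a j - pr Q j)
      rw [add_sub_cancel] at h3
      have h4 := hle (a j - pr Q j)
      rw [hs_sub_comm] at h4
      linarith
    have h2 := sum_le_sum h1
    rw [sum_add_distrib, ← mul_sum, ← mul_sum] at h2
    linarith
  · have h1 : ∀ j ∈ (univ : Finset Q.I), mb O g (pr Q j) N0 ≤
        2 * mb O g (a j) N0 + 2 * hs (pr Q j - a j) := by
      intro j _
      have h3 := hadd (a j) (pr Q j - a j)
      rw [add_sub_cancel] at h3
      have h4 := hle (pr Q j - a j)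
      linarith
    have h2 := sum_le_sum h1
    rw [sum_add_distrib, ← mul_sum, ← mul_sum] at h2
    linarith

end Pool.Agent.N498.ST.XX
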